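import Mathlib

/-!
# Powers `C ^ ω(m)` are `O(m ^ ε)`

Module OMG of board ms3_modules (MP_6bc78b_nt).
-/

namespace Pool.Agent.Lib.MP_6bc78b_nt.MS.P3.H94

open Finset

/-- `C ^ ω(m) ≤ K m ^ ε`, for the number of prime factors of `m`. -/
theorem omg (C eps : ℝ) (heps : 0 < eps) :
    ∃ K : ℝ, 0 < K ∧ ∀ m : ℕ, 1 ≤ m → C ^ m.primeFactors.card ≤ K * (m : ℝ) ^ eps := by
  set D : ℝ := max |C| 1 with hDdef
  have hD1 : 1 ≤ D := le_max_right _ _
  have hD0 : 0 < D := by linarith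
  have hCD : |C| ≤ D := le_max_left _ _
  obtain ⟨B, hB⟩ : ∃ B : ℕ, ∀ p : ℕ, B ≤ p → D ≤ (p : ℝ) ^ eps := by
    refine ⟨⌈D ^ (1 / eps)⌉₊, fun p hp => ?_⟩
    have h1 : D ^ (1 / eps) ≤ (p : ℝ) := (Nat.le_ceil _).trans (by exact_mod_cast hp)
    calc D = (D ^ (1 / eps)) ^ eps := by
          rw [← Real.rpow_mul hD0.le, one_div, inv_mul_cancel₀ heps.ne', Real.rpow_one]
      _ ≤ (p : ℝ) ^ eps := Real.rpow_le_rpow (Real.rpow_nonneg hD0.le _) h1 heps.le
  refine ⟨D ^ B, pow_pos hD0 _, fun m hm => ?_⟩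
  have step1 : C ^ m.primeFactors.card ≤ D ^ m.primeFactors.card :=
    (le_abs_self _).trans (by rw [abs_pow]; exact pow_le_pow_left₀ (abs_nonneg _) hCD _)
  have step2 : D ^ m.primeFactors.card ≤
      (∏ p ∈ m.primeFactors, if p < B then D else 1) * ∏ p ∈ m.primeFactors, (p : ℝ) ^ eps := by
    rw [← Finset.prod_const, ← Finset.prod_mul_distrib]
    refine Finset.prod_le_prod (fun _ _ => hD0.le) fun p hp => ?_
    have hp1 : (1 : ℝ) ≤ (p : ℝ) := by
      exact_mod_cast (Nat.prime_of_mem_primeFactors hp).one_lt.le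
    have hpe : 1 ≤ (p : ℝ) ^ eps := Real.one_le_rpow hp1 heps.le
    split_ifs with h
    · exact le_mul_of_one_le_right hD0.le hpe
    · rw [one_mul]
      exact hB p (not_lt.1 h)
  have step3 : (∏ p ∈ m.primeFactors, if p < B then D else 1) ≤ D ^ B := by
    rw [← Finset.prod_filter, Finset.prod_const]
    refine pow_le_pow_right₀ hD1 ?_
    calc (m.primeFactors.filter (fun p => p < B)).card ≤ (Finset.range B).card :=
          Finset.card_le_card fun p hp => Finset.mem_range.2 (Finset.mem_filter.1 hp).2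
      _ = B := Finset.card_range B
  have step4 : (∏ p ∈ m.primeFactors, (p : ℝ) ^ eps) ≤ (m : ℝ) ^ eps := by
    rw [Real.finsetProd_rpow _ _ (fun p _ => Nat.cast_nonneg p)]
    refine Real.rpow_le_rpow (Finset.prod_nonneg fun p _ => Nat.cast_nonneg p) ?_ heps.le
    have := Nat.le_of_dvd hm (Nat.prod_primeFactors_dvd m)
    rw [← Nat.cast_prod]
    exact Nat.cast_le.2 this
  calc C ^ m.primeFactors.card ≤ D ^ m.primeFactors.card := step1
    _ ≤ _ := step2
    _ ≤ D ^ B * (m : ℝ) ^ eps := mul_le_mul step3 step4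
        (Finset.prod_nonneg fun p _ => Real.rpow_nonneg (Nat.cast_nonneg p) _)
        (pow_nonneg hD0.le _)

/-- The same with `ArithmeticFunction.cardDistinctFactors`. -/
theorem omg' (C eps : ℝ) (heps : 0 < eps) :
    ∃ K : ℝ, 0 < K ∧ ∀ m : ℕ, 1 ≤ m →
      C ^ ArithmeticFunction.cardDistinctFactors m ≤ K * (m : ℝ) ^ eps := by
  obtain ⟨K, hK, h⟩ := omg C eps heps
  refine ⟨K, hK, fun m hm => ?_⟩
  have e : ArithmeticFunction.cardDistinctFactors m = m.primeFactors.card := rfl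
  rw [e]
  exact h m hm

end Pool.Agent.Lib.MP_6bc78b_nt.MS.P3.H94
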